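import Pool.Agent.Q16.MT.Mono

set_option autoImplicit false
set_option maxHeartbeats 4000000

/-!
# Record gaps around multiples together with large prime-free patterns

Write `f(X) = log X (log₂ X)² log₄ X / (log₃ X)²` (the size of the largest prime gaps known below `X`)
and `g(X) = log X log₂ X log₄ X / log₃ X`.  Let `α ≤ exp ((log X) ^ D)` and `ρ = φ(α) / α`.  Let `B` be
any set of at most `c (ρ g(X) + log X)` integers, and let `t(i, j)`, `i < k`, `j ≤ J`, be any integers,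
where `k J ≤ c ρ f(X)` and `J ≥ log X`, all of absolute value at most `exp ((log X) ^ D)`.  Every
interval of length `X` contains an `n` such that there is no prime within `c ρ f(X)` of `α n`, no prime
among the numbers `α n + j t(i, j)` and no prime among the `α n + b`, `b ∈ B`.
-/

namespace Pool.Agent.Results.MP_711652_nt.PatternsAroundMultiples

/-- `f(X) = log X (log₂ X)² log₄ X / (log₃ X)²` -/
noncomputable def f (X : ℝ) : ℝ :=
  Real.log X * Real.log (Real.log X) ^ 2 * Real.log (Real.log (Real.log (Real.log X))) /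
    Real.log (Real.log (Real.log X)) ^ 2

/-- `g(X) = log X log₂ X log₄ X / log₃ X` -/
noncomputable def g (X : ℝ) : ℝ :=
  Real.log X * Real.log (Real.log X) * Real.log (Real.log (Real.log (Real.log X))) /
    Real.log (Real.log (Real.log X))

/-- `ρ(α) = φ(α) / α` -/
noncomputable def rho (α : ℕ) : ℝ := (Nat.totient α : ℝ) / α

theorem result (D : ℕ) : ∃ c : ℝ, 0 < c ∧ ∃ X₀ : ℝ, ∀ X : ℝ, X₀ ≤ X →
    ∀ α : ℕ, 1 ≤ α → (α : ℝ) ≤ Real.exp (Real.log X ^ D) →
    ∀ (k J : ℕ) (t : ℕ → ℕ → ℤ) (B : Finset ℤ),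
      Real.log X ≤ J → (k : ℝ) * J ≤ c * rho α * f X →
      (∀ i j, i < k → 1 ≤ j → j ≤ J → |(t i j : ℝ)| ≤ Real.exp (Real.log X ^ D)) →
      (B.card : ℝ) ≤ c * (rho α * g X + Real.log X) →
      (∀ b ∈ B, |(b : ℝ)| ≤ Real.exp (Real.log X ^ D)) →
      ∀ z : ℤ, ∃ n : ℤ, (z : ℝ) + X / 4 < n ∧ (n : ℝ) ≤ z + X ∧
        (∀ m : ℤ, |(m : ℝ) - α * n| ≤ c * rho α * f X → ¬ Prime m) ∧
        (∀ i j : ℕ, i < k → 1 ≤ j → j ≤ J → ¬ Prime (α * n + j * t i j)) ∧
        ∀ b ∈ B, ¬ Prime (α * n + b) := by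
  obtain ⟨c, hc, X₀, h⟩ := Pool.Agent.Q16.MT.mono D
  refine ⟨c, hc, X₀, fun X hX α hα hαX k J t B hJ hkJ ht hB hBb z => ?_⟩
  have hα0 : (0 : ℝ) < α := by exact_mod_cast (by omega : 0 < α)
  have hlog : Real.log α ≤ Real.log X ^ D := by
    rw [← Real.log_exp (Real.log X ^ D)]
    exact Real.log_le_log hα0 hαX
  have e1 : c * (((Nat.totient α : ℝ) / α) * Pool.Agent.H361R2.PA.FF 1 X) = c * rho α * f X := by
    unfold Pool.Agent.H361R2.PA.FF f rho
    rw [pow_one]
    ring
  have e2 : Real.log X * (Real.log (Real.log X) *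
      Real.log (Real.log (Real.log (Real.log X))) / Real.log (Real.log (Real.log X))) = g X := by
    unfold g
    ring
  obtain ⟨n, hn1, hn2, hn3, hn4, hn5⟩ := h X hX α hα hlog k J t B hJ (by rw [e1]; exact hkJ) ht
    (by rw [e2]; exact hB) hBb z
  refine ⟨n, hn1, hn2, fun m hm => ?_, hn4, hn5⟩
  have e := hn3 (m - (α : ℤ) * n) (by
    rw [e1]
    push_cast
    exact hm)
  rwa [show (α : ℤ) * n + (m - α * n) = m by ring] at e

end Pool.Agent.Results.MP_711652_nt.PatternsAroundMultiples
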