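import Pool.Agent.Q20.RG.Quadric

/-!
# Record prime gaps around all the unknowns of quadratic congruences

For every `r ≥ 3` and `0 < ε ≤ 1` there is `κ > 0` such that for all large primes `p`, all quadratic
polynomials `F(z) = ∑ S_ij z_i z_j + ∑ b_i z_i + c` in `r` variables with integer coefficients whose
symmetric matrix `S` is nonsingular modulo `p`, and all boxes `∏ [A_j, A_j + N_j)` in `[0, p)^r` with
`∏ N_j ≥ p^(r/2 + 1 + ε)` and all `N_j ≥ p^ε`, at least `(∏ N_j) p^(-1 - ε)` of the solutions `z` of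
`F(z) = 0` modulo `p` in the box (there are about `(∏ N_j) / p`) have ALL their `r` coordinates isolated
on the record scale: no prime lies at distance at most `κ log p (log₂ p)² log₄ p / (log₃ p)²` of any of
the coordinates.  The constants do not depend on `F`.  For a cube the sides may be as short as
`p^(1/2 + 1/r + ε)`.

Proof (`Pool.Agent.Q20.RG`): Gauss sums in `r` variables, completion in `r` coordinates and helper46's
form (`Pool.Agent.Q46.MH.crit_many`) of the covering criterion for vectors of integers of the starting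
repository (`Pool.Agent.Y961.JR.critJ`).
-/

set_option autoImplicit false

namespace Pool.Agent.Results.MP_711652_nt.QuadraticCongruences

open Matrix

/-- the record scale `log x (log₂ x)² log₄ x / (log₃ x)²` -/
noncomputable def scale (x : ℝ) : ℝ :=
  Real.log x * (Real.log (Real.log x)) ^ 2 * Real.log (Real.log (Real.log (Real.log x))) /
    (Real.log (Real.log (Real.log x))) ^ 2

/-- no prime at distance at most `K` of `n` -/
def Isolated (K : ℝ) (n : ℕ) : Prop := ∀ q : ℕ, q.Prime → K < |(q : ℝ) - n|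

/-- **Isolated solutions of quadratic congruences.** For `r ≥ 3`, all large primes `p`, all symmetric
integer matrices `S` with a determinant prime to `p`, all integer vectors `b`, integers `c` and all
boxes of intervals `[A j, A j + N j)` in `[0, p)` of lengths at least `p^ε` and with
`∏ N j ≥ p^(r/2 + 1 + ε)`, at least `(∏ N j) p^(-1 - ε)` vectors `z` of natural numbers in the box satisfy
`∑ S_ij z_i z_j + ∑ b_i z_i + c = 0` modulo `p` and have all their coordinates isolated on the record
scale. -/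
theorem result : ∀ r : ℕ, 3 ≤ r → ∀ ε : ℝ, 0 < ε → ε ≤ 1 →
    ∃ κ : ℝ, 0 < κ ∧ ∃ p₀ : ℕ, ∀ p : ℕ, p₀ ≤ p → p.Prime →
    ∀ (S : Matrix (Fin r) (Fin r) ℤ) (b : Fin r → ℤ) (c : ℤ), Sᵀ = S → ¬ (p : ℤ) ∣ S.det →
    ∀ A N : Fin r → ℕ, (∀ j, A j + N j ≤ p) → (∀ j, (p : ℝ) ^ ε ≤ N j) →
      (p : ℝ) ^ ((r : ℝ) / 2 + 1 + ε) ≤ ∏ j, (N j : ℝ) →
      ∃ G : Finset (Fin r → ℕ),
        (∏ j, (N j : ℝ)) * (p : ℝ) ^ (-1 - ε) ≤ G.card ∧
        ∀ z ∈ G, (∀ j, A j ≤ z j ∧ z j < A j + N j) ∧
          (p : ℤ) ∣ ∑ i, ∑ j, S i j * z i * z j + ∑ i, b i * z i + c ∧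
          ∀ j, Isolated (κ * scale p) (z j) :=
  fun r hr ε h0 h1 => Pool.Agent.Q20.RG.quadmain r hr ε h0 h1

end Pool.Agent.Results.MP_711652_nt.QuadraticCongruences
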