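import Pool.Agent.TH646.TT.Grid
import Pool.Agent.Q56.TF.Near

/-!
# Primes at a distance of at most a power of the logarithm, on almost all translates of arbitrary sets by the members
of a real sequence

The translates `A + b` are those with `|b - r m| ≤ log ^ A₀ N`, for almost all `m ≤ x`, where `r 1, ..., r x` is an
arbitrary family of real numbers of nearly minimal energy; for instance the (real) values `β + κ f m` of a polynomial
`f` with integer coefficients, with arbitrary real `κ ≠ 0` and `β`, or of a generalised polynomial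
`f t = ∑ w_y t ^ y` whose largest exponent is greater than `1` and not an integer (`f t = t ^ c`: the sequences of
Piatetski-Shapiro).

From Mathlib: `Polynomial ℤ`, `f.eval m`: polynomials and their values; `Finset.Ioc a b`: the integers `n` with
`a < n ≤ b`. The theorem for families of integers is from the starting files (`Pool.Agent.TH646.TT.cnt_full`).
-/

set_option autoImplicit false

namespace Pool.Agent.Results.MP_711652_nt.RealTranslates

open Finset

open Classical in
/-- The energy of order `p` of the family of real numbers `r 1, ..., r x`: the number of the pairs `v`, `w` of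
`p`-tuples of elements of `{1, ..., x}` such that `r (v 1) + ... + r (v p)` and `r (w 1) + ... + r (w p)` differ
by at most `1`. -/
noncomputable def energy (p x : ℕ) (r : ℕ → ℝ) : ℕ :=
  (((Fintype.piFinset fun _ : Fin p => Icc 1 x) ×ˢ (Fintype.piFinset fun _ : Fin p => Icc 1 x)).filter
    (fun q => |∑ i, r (q.1 i) - ∑ i, r (q.2 i)| ≤ 1)).card

/-- The number of the primes in `(n, n + y]`. -/
def primesIn (n y : ℕ) : ℕ := ((Ioc n (n + y)).filter Nat.Prime).card

open Classical in
/-- The translate `A + b` has good points: for all integers `y` with `(log N) ^ K ≤ y ≤ N` the average of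
`primesIn (a + b) y` over the `a ∈ A` differs from `y / log N` by at most `ε y / log N`, and at least
`(1 / 4 - ε) |A|` elements `a` of `A` have at least `ε y / log N` primes in `(a + b, a + b + y]`. -/
noncomputable def Good (ε : ℝ) (K N : ℕ) (A : Finset ℕ) (b : ℕ) : Prop :=
  ∀ y : ℕ, Real.log N ^ K ≤ y → y ≤ N →
    |(∑ a ∈ A, (primesIn (a + b) y : ℝ)) * Real.log N - A.card * y| ≤ ε * (A.card * y) ∧
    (1 / 4 - ε) * A.card ≤ ((A.filter fun a => ε * y ≤ (primesIn (a + b) y : ℝ) * Real.log N).card : ℝ)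

open Classical in
/-- The number of the `m` in `{1, ..., x}` for which not all integers `b` in `[1, N]` at a distance of at most `w` from
`r m` have the property `G`. -/
noncomputable def exceptions (N x : ℕ) (r : ℕ → ℝ) (w : ℝ) (G : ℕ → Prop) : ℕ :=
  ((Icc 1 x).filter (fun m => ∃ b : ℕ, 1 ≤ b ∧ b ≤ N ∧ |(b : ℝ) - r m| ≤ w ∧ ¬ G b)).card

/-- The bound at scale `N` for the windows around the `r m`, `m ≤ x`: for every set `A` of at least `N / log ^ C N`
integers in `[1, N]`, for all `m ≤ x` with at most `x / log ^ U N` exceptions the translates of `A` by all the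
integers `b` in `[1, N]` with `|b - r m| ≤ log ^ A₀ N` have good points. -/
def Holds (ε : ℝ) (A₀ C U K N x : ℕ) (r : ℕ → ℝ) : Prop :=
  ∀ A : Finset ℕ, A ⊆ Icc 1 N → N / Real.log N ^ C ≤ (A.card : ℝ) →
    (exceptions N x r (Real.log N ^ A₀) (Good ε K N A) : ℝ) ≤ x / Real.log N ^ U

/-- The sequence `f`, of growth `x ^ e`, has the property at all large scales: for all `x` with
`N / log ^ C N ≤ x ^ e ≤ B N` and all translates `β + f m`, `|β| ≤ B N`. -/
def Sequence (ε : ℝ) (A₀ B C U : ℕ) (f : ℕ → ℝ) (e : ℝ) : Prop :=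
  ∃ K : ℕ, ∀ N : ℕ, K ≤ N → ∀ x : ℕ, (x : ℝ) ^ e ≤ B * N → (N : ℝ) ≤ Real.log N ^ C * (x : ℝ) ^ e →
    ∀ β : ℝ, |β| ≤ B * N → Holds ε A₀ C U K N x (fun m => β + f m)

lemma holds_of (A₀ B C C' U p : ℕ) (ε : ℝ) (hε : 0 < ε) (hε1 : ε ≤ 1 / 4) : ∃ K : ℕ, ∀ K' : ℕ, K ≤ K' → ∀ N : ℕ,
    K' ≤ N → ∀ (x : ℕ) (r : ℕ → ℝ), Pool.Agent.Q56.TF.Near A₀ p B C' N x r → Holds ε A₀ C U K' N x r := by
  classical
  obtain ⟨K, hK⟩ := Pool.Agent.TH646.TT.cnt_full p B (C + C') U ε hε hε1
  obtain ⟨N₀, h0⟩ := Filter.eventually_atTop.1 (hK.and (Pool.Agent.W301.SS.ev_L 1))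
  refine ⟨max K N₀, fun K' hK' N hN x r hm A hA hAN => ?_⟩
  obtain ⟨h1, h2⟩ := h0 N (((le_max_right _ _).trans hK').trans hN)
  have hℓ : 0 < Real.log N := by linarith
  have hAN' : N / Real.log N ^ (C + C') ≤ (A.card : ℝ) := by
    refine le_trans ?_ hAN
    apply div_le_div_of_nonneg_left (Nat.cast_nonneg _) (by positivity)
    exact pow_le_pow_right₀ h2 (by omega)
  rw [div_le_iff₀ (by positivity)] at hAN'
  refine hm.count (fun b : ℤ => 0 < b ∧ b ≤ N ∧ ¬ Good ε K' N A b.toNat) _ ?_ _ (filter_subset _ _) ?_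
  · intro s hs hE S hS hSP
    have hE' : (Pool.Agent.H373R2.T7.energy p x s : ℝ) * N ≤ Real.log N ^ (C + C') * (x : ℝ) ^ (2 * p) := by
      refine hE.trans ?_
      apply mul_le_mul_of_nonneg_right _ (by positivity)
      exact pow_le_pow_right₀ h2 (by omega)
    refine h1 x s hs hE' A hA hAN' S hS ?_
    intro m hm
    obtain ⟨h4, h5, h6⟩ := hSP m hm
    refine ⟨h4, h5, fun h7 => h6 ?_⟩
    intro y hy1 hy2
    have hy1' : Real.log N ^ K ≤ y := (pow_le_pow_right₀ h2 ((le_max_left _ _).trans hK')).trans hy1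
    exact h7 y hy1' hy2
  · intro m hm
    obtain ⟨_, b, hb1, hb2, hb3, hb4⟩ := mem_filter.1 hm
    exact ⟨(b : ℤ), by exact_mod_cast hb3, by exact_mod_cast hb1, by exact_mod_cast hb2,
      by rw [Int.toNat_natCast]; exact hb4⟩

lemma sequence_of {f : ℕ → ℝ} {e : ℝ} (h : Pool.Agent.Q56.TF.Base f e) (he : 1 ≤ e) (A₀ B C U : ℕ) (ε : ℝ)
    (hε : 0 < ε) (hε1 : ε ≤ 1 / 4) : Sequence ε A₀ B C U f e := by
  obtain ⟨p, B', C', N₀, h1⟩ := Pool.Agent.Q56.TF.near_base h he A₀ B C
  obtain ⟨K, h2⟩ := holds_of A₀ B' C C' U p ε hε hε1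
  exact ⟨K + N₀, fun N hN x hx1 hx2 β hβ => h2 (K + N₀) (by omega) N hN x _ (h1 N (by omega) x hx1 hx2 β hβ)⟩

/-- Let `A₀`, `B`, `C`, `U` and `0 < ε ≤ 1 / 4` be fixed.

* For every `p` there is a `K` such that for all `N ≥ K` the following holds. Let `r 1, ..., r x` be an arbitrary
  family of real numbers in `[-B N, B N]` with an energy of order `p` of at most `log ^ C N` times `x ^ (2 p) / N`
  (the minimal possible order of magnitude), and let `A` be an arbitrary set of at least `N / log ^ C N` integers in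
  `[1, N]`. For all `m ≤ x` with at most `x / log ^ U N` exceptions, ALL integers `b` in `[1, N]` with
  `|b - r m| ≤ log ^ A₀ N` are such that for all integers `y` with `(log N) ^ K ≤ y ≤ N`: the average over `a ∈ A` of
  the number of the primes in `(a + b, a + b + y]` differs from `y / log N` by at most `ε y / log N`, and at least
  `(1 / 4 - ε) |A|` elements `a` of `A` have at least `ε y / log N` primes in `(a + b, a + b + y]`.
* This holds for `r m = β + κ f m`, `m ≤ x`, where `f` is a fixed nonconstant polynomial with integer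
  coefficients, of degree `d`, `κ ≠ 0` is a fixed real number, `β` is any real number with `|β| ≤ B N`, and
  `N / log ^ C N ≤ x ^ d ≤ B N`.
* This holds for `r m = β + ∑ w_y m ^ y` (a sum over a finite set `F` of real exponents `y`), if the largest
  exponent `e` is greater than `1` and not an integer, `w_e ≠ 0`, `|β| ≤ B N` and `N / log ^ C N ≤ x ^ e ≤ B N`; for
  instance for `r m = β + m ^ e`. -/
theorem result (A₀ B C U : ℕ) (ε : ℝ) (hε : 0 < ε) (hε1 : ε ≤ 1 / 4) :
    (∀ p : ℕ, ∃ K : ℕ, ∀ N : ℕ, K ≤ N → ∀ (x : ℕ) (r : ℕ → ℝ), (∀ m ∈ Icc 1 x, |r m| ≤ B * N) →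
      (energy p x r : ℝ) * N ≤ Real.log N ^ C * (x : ℝ) ^ (2 * p) → Holds ε A₀ C U K N x r) ∧
    (∀ f : Polynomial ℤ, 1 ≤ f.natDegree → ∀ κ : ℝ, κ ≠ 0 →
      Sequence ε A₀ B C U (fun m => κ * ((f.eval (m : ℤ) : ℤ) : ℝ)) f.natDegree) ∧
    (∀ (F : Finset ℝ) (w : ℝ → ℝ) (e : ℝ), e ∈ F → (∀ y ∈ F, y ≤ e) → w e ≠ 0 → 1 < e → (∀ k : ℕ, e ≠ k) →
      Sequence ε A₀ B C U (fun m => ∑ y ∈ F, w y * (m : ℝ) ^ y) e) := by
  classical
  refine ⟨fun p => ?_, fun f hd κ hκ => ?_, fun F w e heF hmax hwe he hen => ?_⟩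
  · obtain ⟨B', C', N₀, h1⟩ := Pool.Agent.Q56.TF.near_gen p A₀ B C
    obtain ⟨K, h2⟩ := holds_of A₀ B' C C' U p ε hε hε1
    exact ⟨K + N₀, fun N hN x r hr hE => h2 (K + N₀) (by omega) N hN x _ (h1 N (by omega) x r hr hE)⟩
  · exact sequence_of ((Pool.Agent.Q56.TF.base_poly f hd).dil hκ) (by exact_mod_cast hd) A₀ B C U ε hε hε1
  · exact sequence_of (Pool.Agent.Q56.TF.base_gp F w e heF hmax hwe he hen) he.le A₀ B C U ε hε hε1

end Pool.Agent.Results.MP_711652_nt.RealTranslates
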