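import Pool.Agent.Q318.RG.Forms

/-!
# Systems of linear forms with arbitrary coefficients: all values inside record prime gaps

Let `f(x) = log x (log₂ x)² log₄ x / (log₃ x)²`, the size of the largest gaps between consecutive
primes that are known to occur up to `x`.

For every `r ≥ 1` and every `0 < ε ≤ 1` there is `κ > 0` such that the following holds for all large
`M`. Let `L_i(x) = b_i + ∑_j A_ij x_j`, `i = 1, …, r`, be linear forms with ARBITRARY integer
coefficients (they may depend on `M` in any way, and there may be any number `n` of variables), whose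
coefficient vectors are linearly independent modulo every prime `≤ M^ε`. In every box with sides
`N_j ≥ M^ε` on which all the forms are at least `M^ε`, at least `(∏ N_j) M^(-ε)` of the points `x` have
the property that no prime lies at distance at most `κ f(M)` from any of the `r` values `L_i(x)`.

Examples: `r = n` and `A` unimodular (all coordinates of the points of the image of a box under any
affine automorphism of `ℤ^r`); `r = 1` and any primitive form. If the coefficients and the box are of
size `≤ M^C`, the values are `≤ M^(C')`, and the gaps around them are of record length.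

Design and proof: helper318 (`Pool.Agent.Q318.RG`), on the criterion `Pool.Agent.Q46.MH.crit_many` of
helper46, which rests on the record covering criterion for vectors of integers of the starting
repository (`Pool.Agent.Y961.JR.critJ`). The sums of exponential functions over a box are products of
geometric sums, and one of the factors has a frequency which is not an integer by the condition on
the small primes.
-/

set_option autoImplicit false

namespace Pool.Agent.Results.MP_711652_nt.SystemsOfLinearForms

/-- the record scale `log x (log₂ x)² log₄ x / (log₃ x)²` -/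
noncomputable def scale (x : ℝ) : ℝ :=
  Real.log x * (Real.log (Real.log x)) ^ 2 * Real.log (Real.log (Real.log (Real.log x))) /
    (Real.log (Real.log (Real.log x))) ^ 2

/-- no prime at distance at most `K` of the integer `n` -/
def Isolated (K : ℝ) (n : ℤ) : Prop := ∀ q : ℕ, q.Prime → K < |(q : ℝ) - n|

/-- **All values of a system of linear forms inside record gaps**, uniformly in the coefficients and
the number of variables. -/
theorem result : ∀ r : ℕ, 1 ≤ r → ∀ ε : ℝ, 0 < ε → ε ≤ 1 → ∃ κ : ℝ, 0 < κ ∧ ∃ M₀ : ℝ,
    ∀ M : ℝ, M₀ ≤ M → ∀ (n : ℕ) (A : Fin r → Fin n → ℤ) (b : Fin r → ℤ) (N : Fin n → ℕ),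
      (∀ l : ℕ, l.Prime → (l : ℝ) ≤ M ^ ε → LinearIndependent (ZMod l) (fun i j => (A i j : ZMod l))) →
      (∀ j, M ^ ε ≤ N j) →
      (∀ x : Fin n → ℕ, (∀ j, x j < N j) → ∀ i, M ^ ε ≤ ((b i + ∑ j, A i j * x j : ℤ) : ℝ)) →
      (∏ j, (N j : ℝ)) * M ^ (-ε) ≤ ({x : Fin n → ℕ | (∀ j, x j < N j) ∧
        ∀ i, Isolated (κ * scale M) (b i + ∑ j, A i j * x j)}.ncard : ℝ) := by
  intro r hr ε h0 h1
  obtain ⟨κ, hκ, hev⟩ := Pool.Agent.Q318.RG.forms r hr ε h0 h1
  obtain ⟨M₀, hM₀⟩ := Filter.eventually_atTop.1 hev
  refine ⟨κ, hκ, M₀, fun M hM n A b N hA hN hpos => ?_⟩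
  have h2 := hM₀ M hM n A (by
    intro l hl hlM h hh i
    have h3 := (Fintype.linearIndependent_iff.1 (hA l hl hlM)) (fun i => (h i : ZMod l)) (by
      funext j
      have h4 := (ZMod.intCast_zmod_eq_zero_iff_dvd _ _).2 (hh j)
      rw [Finset.sum_apply, Pi.zero_apply, ← h4]
      push_cast
      exact Finset.sum_congr rfl fun i _ => rfl) i
    exact (ZMod.intCast_zmod_eq_zero_iff_dvd _ _).1 h3) b N hN hpos
  refine h2.trans (le_of_eq ?_)
  rw [← Set.ncard_coe_finset]
  congr 2
  ext x
  simp only [Finset.coe_filter, Fintype.mem_piFinset, Finset.mem_range, Set.mem_ofPred_eq]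
  rfl

end Pool.Agent.Results.MP_711652_nt.SystemsOfLinearForms
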